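import Mathlib

set_option autoImplicit false

namespace Pool.Agent.Results.MP_a15892_an.No

open Matrix Filter Topology
open scoped ComplexOrder InnerProductSpace

def PTC (A : Type) [CStarAlgebra A] [PartialOrder A] [StarOrderedRing A] : Prop :=
  ∀ k n : ℕ, 0 < k → k < n → ∀ a : ℤ → A,
    0 ≤ CStarMatrix.ofMatrix (Matrix.of fun i j : Fin k => a ((i : ℤ) - j)) →
    ∃ y : ℤ → A, 0 ≤ CStarMatrix.ofMatrix (Matrix.of fun i j : Fin n => y ((i : ℤ) - j)) ∧
      ∀ l : ℤ, |l| ≤ k - 1 → y l = a l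

def T (n : ℕ) (a : ℤ → ℂ) : Matrix (Fin n) (Fin n) ℂ := of fun i j => a ((i : ℤ) - j)

def upd {R : Type} [Star R] (k : ℕ) (a : ℤ → R) (z : R) (l : ℤ) : R :=
  if |l| ≤ k then a l else if 0 < l then z else star z

theorem fac {n : Type} [Fintype n] {M : Matrix n n ℂ} (h : M.PosSemidef) : ∃ B, M = star B * B := by
  classical
  open scoped MatrixOrder in exact CStarAlgebra.nonneg_iff_eq_star_mul_self.mp h.nonneg

theorem vec {n : Type} [Fintype n] {M : Matrix n n ℂ} (h : M.PosSemidef) :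
    ∃ b : n → EuclideanSpace ℂ n, ∀ i j, ⟪b i, b j⟫_ℂ = M i j := by
  obtain ⟨B, rfl⟩ := fac h
  exact ⟨fun i => .toLp 2 fun l => B l i, fun i j => by simp [PiLp.inner_apply, mul_apply, mul_comm]⟩

section
variable {A : Type} [CStarAlgebra A] [PartialOrder A] [StarOrderedRing A]

theorem nn {a : A} : 0 ≤ a ↔ ∃ b, a = star b * b := CStarAlgebra.nonneg_iff_eq_star_mul_self

theorem sqr {X : Type} [TopologicalSpace X] {F : X → A} (c : Continuous F) (p : ∀ x, 0 ≤ F x) :
    ∃ S : X → A, Continuous S ∧ ∀ x, F x = star (S x) * S x :=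
  ⟨_, CFC.continuousOn_sqrt.comp_continuous c p, fun x => by
    rw [Function.comp, (CFC.sqrt_nonneg (F x)).isSelfAdjoint.star_eq, CFC.sqrt_mul_sqrt_self _ (p x)]⟩

theorem opn {F : ℕ → A} {L : A} {r : ℝ} (hr : 0 < r) (h : Tendsto F atTop (𝓝 L))
    (s : ∀ j, IsSelfAdjoint (F j)) (l : 0 ≤ L - algebraMap ℝ A r) : ∀ᶠ j in atTop, 0 ≤ F j := by
  filter_upwards [(tendsto_iff_norm_sub_tendsto_zero.1 h).eventually (ge_mem_nhds hr)] with j hj
  have sL : IsSelfAdjoint L := by
    simpa using l.isSelfAdjoint.add (IsSelfAdjoint.algebraMap A (.all r))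
  have := ((s j).sub sL).neg_algebraMap_norm_le_self
  have b : 0 ≤ algebraMap ℝ A (r - ‖F j - L‖) := algebraMap_nonneg _ (sub_nonneg.2 hj)
  convert add_nonneg (add_nonneg l b) (sub_nonneg.2 this) using 1
  rw [map_sub]; abel
end

theorem pos0 {n : Type} [Fintype n] [DecidableEq n] (M : Matrix n n ℂ) :
    0 ≤ CStarMatrix.ofMatrix M ↔ M.PosSemidef :=
  nn.trans ⟨fun ⟨B, h⟩ => (show M = _ from h) ▸ posSemidef_conjTranspose_mul_self (n := n) B, fac⟩

theorem pos {n : Type} [Fintype n] [DecidableEq n] {X : Type} [TopologicalSpace X] [CompactSpace X]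
    (M : Matrix n n C(X, ℂ)) :
    0 ≤ CStarMatrix.ofMatrix M ↔ ∀ x, (of fun i j => M i j x).PosSemidef := by
  refine ⟨fun h x => ?_, fun h => ?_⟩
  · obtain ⟨B, hB⟩ := nn.mp h
    convert posSemidef_conjTranspose_mul_self (of fun i j => B i j x)
    ext i j
    simpa [CStarMatrix.mul_apply, mul_apply, CStarMatrix.star_apply] using congr($hB i j x)
  · obtain ⟨S, c, s⟩ := sqr (F := fun x => CStarMatrix.ofMatrix (of fun i j => M i j x))
      (continuous_matrix fun i j => (M i j).continuous) fun x => (pos0 _).2 (h x)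
    refine nn.mpr ⟨fun i j => ⟨fun x => S x i j, Continuous.matrix_elem c i j⟩, ?_⟩
    ext i j x
    simpa [CStarMatrix.mul_apply, CStarMatrix.star_apply] using congr($(s x) i j)

theorem ex (k : ℕ) (a : ℤ → ℂ) (h : (T (k + 1) a).PosSemidef) :
    ∃ z, (T (k + 2) (upd k a z)).PosSemidef := by
  obtain ⟨b, hb⟩ := vec h
  let p := Fintype.linearCombination ℂ fun i : Fin k => b i.castSucc
  let q := Fintype.linearCombination ℂ fun i : Fin k => b i.succ
  have e : ∀ v w, ⟪q v, q w⟫_ℂ = ⟪p v, p w⟫_ℂ := fun v w => by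
    simp only [p, q, Fintype.linearCombination_apply, sum_inner, inner_sum, inner_smul_left,
      inner_smul_right, hb, T]
    simp
  let L := (p.ker.liftQ q fun v hv => by
    rw [LinearMap.mem_ker, ← inner_self_eq_zero (𝕜 := ℂ)] at *
    rwa [e]).comp p.quotKerEquivRange.symm.toLinearMap
  have l : ∀ v, L ⟨p v, v, rfl⟩ = q v := fun v => by simp [L]
  have o : ∀ x y, ⟪L x, L y⟫_ℂ = ⟪x, y⟫_ℂ := by
    rintro ⟨_, v, rfl⟩ ⟨_, w, rfl⟩
    rw [l, l, e]; rfl
  let I : p.range →ₗᵢ[ℂ] EuclideanSpace ℂ (Fin (k + 1)) := ⟨L, fun x => by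
    rw [norm_eq_sqrt_re_inner (𝕜 := ℂ), o]; exact (norm_eq_sqrt_re_inner (𝕜 := ℂ) x.1).symm⟩
  let U := I.extend
  have u : ∀ i : Fin k, U (b i.castSucc) = b i.succ := fun i => by
    have := (I.extend_apply ⟨p (Pi.single i 1), _, rfl⟩).trans (l _)
    simpa [p, q] using this
  let c : Fin (k + 2) → _ := Fin.snoc b (U (b (Fin.last k)))
  have c1 : ∀ i : Fin (k + 1), c i.castSucc = b i := fun i => Fin.snoc_castSucc ..
  have c2 : ∀ i : Fin (k + 1), c i.succ = U (b i) := fun i => by
    refine Fin.lastCases (Fin.snoc_last ..) (fun i => ?_) i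
    rw [u, Fin.succ_castSucc, c1]
  refine ⟨⟪c (Fin.last _), c 0⟫_ℂ, ?_⟩
  rw [show T _ _ = gram ℂ c from ?_]
  · exact posSemidef_gram ℂ c
  ext i j
  simp only [T, upd, of_apply, gram_apply]
  split_ifs with h1 h2
  · by_cases z : i = 0 ∨ j = 0
    · obtain ⟨i, rfl⟩ := Fin.exists_castSucc_eq.2 (show i ≠ Fin.last _ by grind)
      obtain ⟨j, rfl⟩ := Fin.exists_castSucc_eq.2 (show j ≠ Fin.last _ by grind)
      simp [c1, hb, T]
    · obtain ⟨i, rfl⟩ := Fin.exists_succ_eq.2 (show i ≠ 0 by grind)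
      obtain ⟨j, rfl⟩ := Fin.exists_succ_eq.2 (show j ≠ 0 by grind)
      simp [c2, hb, T]
  · rw [show i = Fin.last _ by grind, show j = 0 by grind]
  · rw [show j = Fin.last _ by grind, show i = 0 by grind]
    exact inner_conj_symm _ _

theorem nul (a : ℤ → ℂ) (k : ℕ) (h : (T k a).PosSemidef) (v : Fin k → ℂ) (v0 : v ≠ 0)
    (v1 : star v ⬝ᵥ T k a *ᵥ v = 0) : ∃ (u : Fin k → ℂ) (p : 0 < k), u ⟨0, p⟩ ≠ 0 ∧
      star u ⬝ᵥ T k a *ᵥ u = 0 := by
  induction k with
  | zero => exact absurd (Subsingleton.elim _ _) v0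
  | succ k ih =>
    by_cases z : v 0 = 0
    swap; · exact ⟨v, k.succ_pos, z, v1⟩
    obtain ⟨u, p, u0, u1⟩ := ih (h.submatrix Fin.castSucc) (Fin.tail v)
      (fun e => v0 (by rw [← Fin.cons_self_tail v, z, e]; ext i; refine Fin.cases rfl (fun _ => rfl) i))
      (by simpa [dotProduct, mulVec, Fin.sum_univ_succ, z, T, Fin.tail] using v1)
    refine ⟨Fin.snoc u 0, k.succ_pos, ?_, ?_⟩
    · rwa [show (⟨0, k.succ_pos⟩ : Fin (k + 1)) = Fin.castSucc ⟨0, p⟩ from rfl, Fin.snoc_castSucc]
    · simpa [dotProduct, mulVec, Fin.sum_univ_castSucc, T] using u1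

theorem step (k : ℕ) (a : ℤ → C(OnePoint ℕ, ℂ)) (h : ∀ x, (T (k + 1) fun l => a l x).PosSemidef) :
    ∃ z : C(OnePoint ℕ, ℂ), ∀ x, (T (k + 2) (upd k (fun l => a l x) (z x))).PosSemidef := by
  choose z hz using fun x => ex k _ (h x)
  have t : ∀ l, Tendsto (fun j : ℕ => a l j) atTop (𝓝 (a l OnePoint.infty)) := fun l =>
    (OnePoint.continuous_iff_from_nat _).1 (a l).continuous
  by_cases d : (T (k + 1) fun l => a l OnePoint.infty).PosDef
  · obtain ⟨r, hr, p⟩ : ∃ r : ℝ, 0 < r ∧
        (T (k + 1) (fun l => a l OnePoint.infty) - algebraMap ℝ _ r).PosSemidef := by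
      open scoped MatrixOrder in exact (CFC.exists_pos_algebraMap_le_iff d.isHermitian).2 fun x hx =>
        d.isStrictlyPositive.spectrum_pos hx
    obtain ⟨w, hw⟩ := ex k (fun l => a l OnePoint.infty - if l = 0 then (r : ℂ) else 0) (by
      convert p
      ext i j
      simp [T, algebraMap_matrix_apply, sub_eq_zero, Fin.ext_iff])
    rw [show T _ _ = T (k + 2) (upd k (fun l => a l OnePoint.infty) w) - algebraMap ℝ _ r by
      ext i j
      simp only [T, upd, algebraMap_matrix_apply, of_apply, Matrix.sub_apply]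
      by_cases e : i = j
      · simp [e]
      · simp [e, sub_eq_zero, Fin.val_inj]] at hw
    have := opn (F := fun j : ℕ => CStarMatrix.ofMatrix (T (k + 2) (upd k (fun l => a l j) w)))
      (L := CStarMatrix.ofMatrix (T (k + 2) (upd k (fun l => a l OnePoint.infty) w))) hr
      (tendsto_pi_nhds.2 fun i => tendsto_pi_nhds.2 fun j => by
        simp only [T, upd, CStarMatrix.ofMatrix_apply, of_apply]
        split_ifs
        exacts [t _, tendsto_const_nhds, tendsto_const_nhds])
      (fun x => by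
        ext i j
        have := congr($((hz x).1) i j)
        simp only [T, upd, CStarMatrix.ofMatrix_apply, of_apply, CStarMatrix.star_apply,
          conjTranspose_apply] at *
        grind [star_star])
      ((pos0 _).2 hw)
    classical
    let P := fun x : OnePoint ℕ => (T (k + 2) (upd k (fun l => a l x) w)).PosSemidef
    refine ⟨OnePoint.continuousMapMkNat (fun j => if P j then w else z j) w
      (tendsto_const_nhds.congr' (this.mono fun j hj => (if_pos ((pos0 _).1 hj)).symm)), fun x => ?_⟩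
    induction x using OnePoint.rec with
    | infty =>
      open scoped MatrixOrder in exact
        ((algebraMap_nonneg _ hr.le).trans (Matrix.le_iff.2 hw)).posSemidef
    | coe j =>
      change (T _ (upd _ _ (ite _ _ _))).PosSemidef
      split_ifs with p
      exacts [p, hz j]
  rw [posDef_iff_dotProduct_mulVec, not_and_or, or_iff_right (not_not.2 (h _).1)] at d
  push Not at d
  obtain ⟨v, v0, v1⟩ := d
  obtain ⟨u, _, u0, u1⟩ := nul _ _ (h _) v v0
    (((h _).dotProduct_mulVec_nonneg v).eq_of_not_lt v1).symm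
  let q := fun x : OnePoint ℕ => star u ⬝ᵥ T (k + 1) (fun l => a l x) *ᵥ u
  let s := fun x : OnePoint ℕ => ∑ i : Fin k, a (k - i) x * u i.succ
  have cs : ∀ x, ‖z x * u 0 + s x‖ ^ 2 ≤ ‖a 0 x‖ * ‖q x‖ := fun x => by
    obtain ⟨b, hb⟩ := vec (hz x)
    have := norm_inner_le_norm (𝕜 := ℂ) (b (Fin.last _)) (∑ i, u i • b i.castSucc)
    have e1 : ⟪b (Fin.last _), ∑ i, u i • b i.castSucc⟫_ℂ = z x * u 0 + s x := by
      simp only [inner_sum, inner_smul_right, hb]
      rw [Fin.sum_univ_succ]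
      simp only [T, upd, of_apply]
      congr 1
      · simp [mul_comm, abs_of_nonneg, add_nonneg]
      · refine Finset.sum_congr rfl fun i _ => ?_
        rw [if_pos (by grind), mul_comm]
        congr 3; simp
    have e2 : ⟪∑ i, u i • b i.castSucc, ∑ i, u i • b i.castSucc⟫_ℂ = q x := by
      simp only [inner_sum, sum_inner, inner_smul_right, inner_smul_left, hb, T, upd, of_apply, q,
        dotProduct, mulVec, Finset.mul_sum]
      rw [Finset.sum_comm]
      refine Finset.sum_congr rfl fun i _ => Finset.sum_congr rfl fun j _ => ?_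
      rw [if_pos (by grind)]
      simp; ring
    have e3 : ⟪b (Fin.last _), b (Fin.last _)⟫_ℂ = a 0 x := by rw [hb]; simp [T, upd]
    rw [← e1, ← e2, ← e3, inner_self_eq_norm_sq_to_K, inner_self_eq_norm_sq_to_K]
    simp only [norm_pow, RCLike.norm_ofReal, abs_norm, ← mul_pow]
    gcongr
  have cq : Continuous fun x => ‖a 0 x‖ * ‖q x‖ := by
    simp only [q, dotProduct, mulVec, T, of_apply]; fun_prop
  have cs' : Continuous s := by fun_prop
  have q0 : q OnePoint.infty = 0 := u1
  refine ⟨⟨z, (OnePoint.continuous_iff_from_nat _).2 ?_⟩, hz⟩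
  have g := (OnePoint.continuous_iff_from_nat _).1 cq
  have g0 := cs OnePoint.infty
  rw [q0, norm_zero, mul_zero] at g g0
  have g1 := tendsto_zero_iff_norm_tendsto_zero.2 (squeeze_zero (fun _ => norm_nonneg _)
    (fun j : ℕ => Real.le_sqrt_of_sq_le (cs j)) (by simpa using g.sqrt))
  have g2 := (g1.sub ((OnePoint.continuous_iff_from_nat _).1 cs')).div_const (u 0)
  have g3 : z OnePoint.infty * u 0 + s OnePoint.infty = 0 := by simpa using g0
  have u0 : u 0 ≠ 0 := u0
  convert g2 using 2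
  · field_simp; ring
  · field_simp; linear_combination g3

theorem yes : PTC C(OnePoint ℕ, ℂ) := by
  intro k n hk h a p
  induction n, h using Nat.le_induction with
  | base =>
    obtain ⟨k, rfl⟩ := Nat.exists_eq_add_one.2 hk
    obtain ⟨z, hz⟩ := step k a ((pos _).1 p)
    refine ⟨upd k a z, (pos _).2 fun x => ?_, fun l hl => if_pos (by simpa using hl)⟩
    convert hz x
    ext i j
    simp only [T, upd, of_apply]
    split_ifs <;> rfl
  | succ n h ih =>
    obtain ⟨y, p, e⟩ := ih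
    obtain ⟨n, rfl⟩ := Nat.exists_eq_add_one.2 (show 0 < n by omega)
    obtain ⟨z, hz⟩ := step n y ((pos _).1 p)
    refine ⟨upd n y z, (pos _).2 fun x => ?_, fun l hl => (if_pos (by omega)).trans (e l hl)⟩
    convert hz x
    ext i j
    simp only [T, upd, of_apply]
    split_ifs <;> rfl

theorem no : ¬PTC (CStarMatrix (Fin 2) (Fin 2) C(OnePoint ℕ, ℂ)) := by
  intro h
  have t : Tendsto (fun j : ℕ => 1 / ((j : ℂ) + 1)) atTop (𝓝 0) :=
    tendsto_one_div_add_atTop_nhds_zero_nat
  let r := OnePoint.continuousMapMkNat _ _ t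
  let x := OnePoint.continuousMapMkNat (fun j : ℕ => (-1) ^ j * (1 / ((j : ℂ) + 1))) 0
    (tendsto_zero_iff_norm_tendsto_zero.2 (by simpa using t.norm))
  have rj : ∀ j : ℕ, r j = 1 / ((j : ℂ) + 1) := fun _ => rfl
  have xj : ∀ j : ℕ, x j = (-1) ^ j * r j := fun _ => rfl
  have r0 : r OnePoint.infty = 0 := rfl
  have x0 : x OnePoint.infty = 0 := rfl
  have sr : star r = r := by
    ext p; induction p using OnePoint.rec <;> simp [rj, r0]
  have sx : star x = x := by
    ext p; induction p using OnePoint.rec <;> simp [xj, rj, x0]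
  have xr : r * r = x * x := by
    ext p; induction p using OnePoint.rec <;> simp [xj, r0, x0]
    rw [mul_mul_mul_comm, ← mul_pow]; simp
  obtain ⟨y, p, e⟩ := h 2 3 two_pos (by omega) (fun l => CStarMatrix.ofMatrix
      (if l = 0 then !![1, 0; 0, x * x] else if l = 1 then !![0, x; r, 0] else !![0, r; x, 0]))
    (nn.2 ⟨CStarMatrix.ofMatrix !![CStarMatrix.ofMatrix !![1, 0; 0, x],
      CStarMatrix.ofMatrix !![0, r; 1, 0]; 0, 0], by
        ext i j a b : 4
        fin_cases i <;> fin_cases j <;> fin_cases a <;> fin_cases b <;>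
          simp [CStarMatrix.mul_apply, CStarMatrix.star_apply, sr, sx, xr]⟩)
  obtain ⟨B, hB⟩ := nn.1 p
  have : ∀ j : ℕ, y 2 0 0 j = (-1) ^ j := fun j => by
    let b : Fin 3 → Fin 2 → EuclideanSpace ℂ (Fin 3 × Fin 2) := fun i a => .toLp 2 fun l => B l.1 i l.2 a j
    have hb : ∀ i a i' a', ⟪b i a, b i' a'⟫_ℂ = y ((i : ℤ) - i') a a' j := fun i a i' a' => by
      have := congr($hB i i' a a' j)
      simp only [CStarMatrix.ofMatrix_apply, of_apply] at this
      rw [this]
      simp [b, PiLp.inner_apply, Fintype.sum_prod_type, CStarMatrix.mul_apply, CStarMatrix.star_apply,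
        Fin.sum_univ_succ, mul_comm]
    have n : r j ≠ 0 := by rw [rj]; exact one_div_ne_zero (Nat.cast_add_one_ne_zero j)
    have f : b 1 1 - r j • b 0 0 = 0 := by
      rw [← inner_self_eq_zero (𝕜 := ℂ)]
      simp only [inner_sub_left, inner_sub_right, inner_smul_left, inner_smul_right, hb]
      have := congr($sr j)
      simp at this
      simp [e, ← xr, this]
    have := hb 2 0 1 1
    rw [sub_eq_zero.1 f, inner_smul_right, hb, e ((2 : Fin 3) - (1 : Fin 3)) (by simp)] at this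
    simp at this
    exact mul_left_cancel₀ n (this.trans (by rw [xj, mul_comm]))
  have g := (OnePoint.continuous_iff_from_nat _).1 (y 2 0 0).continuous
  have := (g.comp (tendsto_add_atTop_nat 1)).add g
  simp only [Function.comp, ‹∀ j : ℕ, y 2 0 0 j = _›, pow_succ, mul_neg, mul_one, neg_add_cancel,
    tendsto_const_nhds_iff] at this g
  have := add_self_eq_zero.1 this.symm ▸ g.norm
  simp at this

theorem result : PTC C(OnePoint ℕ, ℂ) ∧ ¬PTC (CStarMatrix (Fin 2) (Fin 2) C(OnePoint ℕ, ℂ)) :=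
  ⟨yes, no⟩

end Pool.Agent.Results.MP_a15892_an.No
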